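import Pool.Agent.H86.GMF.BMP

/-!
Board ga: the bump functions near the unit matrix, the cut-off functions (lemmas which do not
depend on the targets).
-/

set_option autoImplicit false

namespace Pool.Agent.H86.GA

open MeasureTheory Pool.Agent.H34.GM

noncomputable section

/-- the squared Frobenius distance to the unit matrix -/
def fs {m : ℕ} (z : Mat m) : ℝ := ∑ i, ∑ j, ((z - 1) i j) ^ 2

theorem fs_nonneg {m : ℕ} (z : Mat m) : 0 ≤ fs z :=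
  Finset.sum_nonneg fun _ _ => Finset.sum_nonneg fun _ _ => sq_nonneg _

theorem fs_cont {m : ℕ} : Continuous (fun z : Mat m => fs z) := by
  unfold fs
  refine continuous_finsetSum _ fun i _ => continuous_finsetSum _ fun j _ => ?_
  refine Continuous.pow ?_ 2
  have h1 : Continuous (fun z : Mat m => z - 1) := continuous_id.sub continuous_const
  exact h1.matrix_elem i j

theorem fs_contDiff {m : ℕ} : ContDiff ℝ ((⊤ : ℕ∞) : WithTop ℕ∞) (fun z : V m => fs (mt z)) := by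
  have h : (fun z : V m => fs (mt z)) =
      fun z : V m => ∑ i, ∑ j, (z i j - (1 : Mat m) i j) ^ 2 := rfl
  rw [h]
  refine ContDiff.sum fun i _ => ContDiff.sum fun j _ => ?_
  refine ContDiff.pow ?_ 2
  exact (contDiff_apply_apply ℝ ℝ i j).sub contDiff_const

theorem fs_row {m : ℕ} (z : Mat m) (i : Fin m) : ∑ j, ((z - 1) i j) ^ 2 ≤ fs z :=
  Finset.single_le_sum (f := fun i => ∑ j, ((z - 1) i j) ^ 2)
    (fun _ _ => Finset.sum_nonneg fun _ _ => sq_nonneg _) (Finset.mem_univ i)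

theorem fs_entry {m : ℕ} (z : Mat m) (i j : Fin m) : ((z - 1) i j) ^ 2 ≤ fs z :=
  (Finset.single_le_sum (f := fun j => ((z - 1) i j) ^ 2) (fun _ _ => sq_nonneg _)
    (Finset.mem_univ j)).trans (fs_row z i)

theorem sz_le {m : ℕ} {X : Mat m} {x : ℝ} (hx0 : 0 ≤ x) : sz X ≤ x ↔ ∀ i j, |X i j| ≤ x := by
  unfold sz
  rw [pi_norm_le_iff_of_nonneg hx0]
  refine forall_congr' fun i => ?_
  rw [pi_norm_le_iff_of_nonneg hx0]
  exact Iff.rfl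

theorem entry_le {m : ℕ} (X : Mat m) (i j : Fin m) : |X i j| ≤ sz X :=
  (sz_le (norm_nonneg _)).1 le_rfl i j

theorem sz_sub_one {m : ℕ} {z : Mat m} {δ : ℝ} (hδ : 0 ≤ δ) (h : fs z ≤ δ ^ 2) :
    sz (z - 1) ≤ δ := by
  rw [sz_le hδ]
  intro i j
  exact abs_le_of_sq_le_sq ((fs_entry z i j).trans h) hδ

theorem fs_le {m : ℕ} {z : Mat m} {ε : ℝ} (h : sz (z - 1) ≤ ε) : fs z ≤ (m * ε) ^ 2 := by
  have h0 : 0 ≤ ε := (norm_nonneg _).trans h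
  unfold fs
  calc _ ≤ ∑ _i : Fin m, ∑ _j : Fin m, ε ^ 2 := by
        refine Finset.sum_le_sum fun i _ => Finset.sum_le_sum fun j _ => ?_
        rw [← sq_abs]
        exact pow_le_pow_left₀ (abs_nonneg _) ((entry_le _ i j).trans h) 2
    _ = (m * ε) ^ 2 := by
        simp only [Finset.sum_const, Finset.card_univ, Fintype.card_fin, nsmul_eq_mul]
        ring

theorem sz_le_two {m : ℕ} {z : Mat m} (h : fs z ≤ 1 / 4) : sz z ≤ 2 := by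
  rw [sz_le (by norm_num)]
  intro i j
  have h1 : |(z - 1) i j| ≤ 1 / 2 :=
    abs_le_of_sq_le_sq (((fs_entry z i j).trans h).trans (by norm_num)) (by norm_num)
  have h2 : z i j = (z - 1) i j + (1 : Mat m) i j := by simp
  have h3 : |(1 : Mat m) i j| ≤ 1 := by
    rw [Matrix.one_apply]
    split_ifs <;> simp
  rw [h2]
  refine (abs_add_le _ _).trans ?_
  linarith

theorem det_ne {m : ℕ} {z : Mat m} (h : fs z ≤ 1 / 4) : z.det ≠ 0 := by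
  intro h0
  obtain ⟨v, hv, hzv⟩ := Matrix.exists_mulVec_eq_zero_iff.2 h0
  have h1 : (z - 1).mulVec v = -v := by
    rw [Matrix.sub_mulVec, hzv, Matrix.one_mulVec, zero_sub]
  have h2 : ∑ i, v i ^ 2 ≤ fs z * ∑ j, v j ^ 2 := by
    unfold fs
    rw [Finset.sum_mul]
    refine Finset.sum_le_sum fun i _ => ?_
    have e1 : v i ^ 2 = (∑ j, (z - 1) i j * v j) ^ 2 := by
      have := congrFun h1 i
      have e2 : (z - 1).mulVec v i = ∑ j, (z - 1) i j * v j := rfl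
      rw [← e2, this, Pi.neg_apply, neg_sq]
    rw [e1]
    exact Finset.sum_mul_sq_le_sq_mul_sq _ _ _
  have h3 : 0 < ∑ j, v j ^ 2 := by
    obtain ⟨j, hj⟩ : ∃ j, v j ≠ 0 := by
      by_contra hc
      push Not at hc
      exact hv (funext hc)
    exact lt_of_lt_of_le (by positivity : 0 < v j ^ 2)
      (Finset.single_le_sum (f := fun j => v j ^ 2) (fun _ _ => sq_nonneg _) (Finset.mem_univ j))
  nlinarith

/-- rows of a product -/
theorem row_mul {m : ℕ} (w M : Mat m) (i : Fin m) :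
    ∑ j, ((w * M) i j) ^ 2 ≤ (∑ k, (w i k) ^ 2) * ∑ k, ∑ j, (M k j) ^ 2 := by
  have h1 : ∀ j, ((w * M) i j) ^ 2 ≤ (∑ k, (w i k) ^ 2) * ∑ k, (M k j) ^ 2 := by
    intro j
    rw [Matrix.mul_apply]
    exact Finset.sum_mul_sq_le_sq_mul_sq _ _ _
  calc _ ≤ ∑ j, (∑ k, (w i k) ^ 2) * ∑ k, (M k j) ^ 2 := Finset.sum_le_sum fun j _ => h1 j
    _ = _ := by
      rw [← Finset.mul_sum, Finset.sum_comm]

theorem inv_row {m : ℕ} {z : Mat m} (h : fs z ≤ 1 / 4) (i : Fin m) :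
    ∑ k, (z⁻¹ i k) ^ 2 ≤ 4 := by
  have hu : IsUnit z.det := isUnit_iff_ne_zero.2 (det_ne h)
  have h1 : z⁻¹ = 1 - z⁻¹ * (z - 1) := by
    rw [Matrix.mul_sub, Matrix.nonsing_inv_mul z hu, Matrix.mul_one]
    abel
  have h2 := row_mul z⁻¹ (z - 1) i
  have h3 : 0 ≤ ∑ k, (z⁻¹ i k) ^ 2 := Finset.sum_nonneg fun _ _ => sq_nonneg _
  have h4 : (∑ k, (z⁻¹ i k) ^ 2) * ∑ k, ∑ j, ((z - 1) k j) ^ 2 ≤ (∑ k, (z⁻¹ i k) ^ 2) * (1 / 4) :=
    mul_le_mul_of_nonneg_left h h3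
  have h5 : ∑ k, (z⁻¹ i k) ^ 2 ≤ 2 * ∑ k, ((1 : Mat m) i k) ^ 2 +
      2 * ∑ k, ((z⁻¹ * (z - 1)) i k) ^ 2 := by
    rw [Finset.mul_sum, Finset.mul_sum, ← Finset.sum_add_distrib]
    refine Finset.sum_le_sum fun k _ => ?_
    have e : z⁻¹ i k = (1 : Mat m) i k - (z⁻¹ * (z - 1)) i k := by
      conv_lhs => rw [h1]
      rfl
    rw [e]
    nlinarith [sq_nonneg ((1 : Mat m) i k + (z⁻¹ * (z - 1)) i k)]
  have h6 : ∑ k, ((1 : Mat m) i k) ^ 2 = 1 := by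
    simp [Matrix.one_apply]
  rw [h6] at h5
  linarith

theorem inv_entry {m : ℕ} {z : Mat m} (h : fs z ≤ 1 / 4) (i j : Fin m) : |z⁻¹ i j| ≤ 2 := by
  refine abs_le_of_sq_le_sq ?_ (by norm_num)
  refine (Finset.single_le_sum (f := fun k => (z⁻¹ i k) ^ 2) (fun _ _ => sq_nonneg _)
    (Finset.mem_univ j)).trans ((inv_row h i).trans (by norm_num))

theorem sz_inv {m : ℕ} {z : Mat m} (h : fs z ≤ 1 / 4) : sz z⁻¹ ≤ 2 :=
  (sz_le (by norm_num)).2 (inv_entry h)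

theorem sz_inv_sub {m : ℕ} {z : Mat m} {δ : ℝ} (h0 : 0 ≤ δ) (h1 : δ ≤ 1 / 2)
    (h : fs z ≤ δ ^ 2) : sz (z⁻¹ - 1) ≤ 2 * δ := by
  have h4 : fs z ≤ 1 / 4 := h.trans (by nlinarith)
  have hu : IsUnit z.det := isUnit_iff_ne_zero.2 (det_ne h4)
  have h2 : z⁻¹ - 1 = -(z⁻¹ * (z - 1)) := by
    rw [Matrix.mul_sub, Matrix.nonsing_inv_mul z hu, Matrix.mul_one]
    abel
  rw [sz_le (by positivity)]
  intro i j
  rw [h2, Matrix.neg_apply, abs_neg]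
  refine abs_le_of_sq_le_sq ?_ (by positivity)
  have h3 : ((z⁻¹ * (z - 1)) i j) ^ 2 ≤ ∑ j, ((z⁻¹ * (z - 1)) i j) ^ 2 :=
    Finset.single_le_sum (f := fun j => ((z⁻¹ * (z - 1)) i j) ^ 2) (fun _ _ => sq_nonneg _)
      (Finset.mem_univ j)
  refine h3.trans ((row_mul z⁻¹ (z - 1) i).trans ?_)
  have h5 : ∑ k, ∑ j, ((z - 1) k j) ^ 2 ≤ δ ^ 2 := h
  have h6 : 0 ≤ ∑ k, ∑ j, ((z - 1) k j) ^ 2 := fs_nonneg z
  calc _ ≤ 4 * δ ^ 2 := mul_le_mul (inv_row h4 i) h5 h6 (by norm_num)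
    _ = (2 * δ) ^ 2 := by ring

theorem det_bd {m : ℕ} {w : Mat m} {x : ℝ} (h : ∀ i j, |w i j| ≤ x) :
    |w.det| ≤ (Nat.factorial m : ℝ) * x ^ m := by
  have h1 := Matrix.det_le (A := w) (abv := AbsoluteValue.abs) (x := x) h
  rw [nsmul_eq_mul, Fintype.card_fin] at h1
  exact h1

theorem det_low {m : ℕ} {z : Mat m} (h : fs z ≤ 1 / 4) :
    ((Nat.factorial m : ℝ) * 2 ^ m)⁻¹ ≤ |z.det| := by
  have h1 := det_bd (inv_entry h)
  have h2 : z⁻¹.det * z.det = 1 := by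
    rw [← Matrix.det_mul, Matrix.nonsing_inv_mul z (isUnit_iff_ne_zero.2 (det_ne h)),
      Matrix.det_one]
  have h3 : |z⁻¹.det| * |z.det| = 1 := by rw [← abs_mul, h2, abs_one]
  have h4 : 0 < |z.det| := abs_pos.2 (det_ne h)
  rw [inv_le_comm₀ (by positivity) h4]
  have h5 : |z.det|⁻¹ = |z⁻¹.det| := by
    field_simp
    linarith
  rw [h5]
  exact h1

/-- the bump functions near `1`, real valued -/
def bf {m : ℕ} (χ : ℝ → ℝ) (δ : ℝ) (z : Mat m) : ℝ := χ (fs z / δ ^ 2)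

theorem bf_supp {m : ℕ} {χ : ℝ → ℝ} (hχ : Prof χ) {δ : ℝ} (h0 : 0 < δ) {z : Mat m}
    (h : bf χ δ z ≠ 0) : fs z ≤ δ ^ 2 := by
  by_contra h1
  push Not at h1
  apply h
  unfold bf
  apply hχ.supp
  rw [abs_of_nonneg (div_nonneg (fs_nonneg _) (sq_nonneg _)), le_div_iff₀ (by positivity)]
  linarith

theorem bf_supp4 {m : ℕ} {χ : ℝ → ℝ} (hχ : Prof χ) {δ : ℝ} (h0 : 0 < δ) (h1 : δ ≤ 1 / 2)
    {z : Mat m} (h : bf χ δ z ≠ 0) : fs z ≤ 1 / 4 :=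
  (bf_supp hχ h0 h).trans (by nlinarith)

theorem bf_one {m : ℕ} {χ : ℝ → ℝ} (hχ : Prof χ) {δ : ℝ} (h0 : 0 < δ) {z : Mat m}
    (h : fs z ≤ δ ^ 2 / 4) : bf χ δ z = 1 := by
  unfold bf
  apply hχ.one
  rw [abs_of_nonneg (div_nonneg (fs_nonneg _) (sq_nonneg _)), div_le_iff₀ (by positivity)]
  linarith

theorem bf_one' {m : ℕ} (hm : 1 ≤ m) {χ : ℝ → ℝ} (hχ : Prof χ) {δ : ℝ} (h0 : 0 < δ) {z : Mat m}
    (h : sz (z - 1) ≤ δ / (2 * m)) : bf χ δ z = 1 := by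
  apply bf_one hχ h0
  refine (fs_le h).trans (le_of_eq ?_)
  have : (m : ℝ) ≠ 0 := by exact_mod_cast (by omega : m ≠ 0)
  field_simp
  norm_num

theorem bf_cont {m : ℕ} {χ : ℝ → ℝ} (hχ : Prof χ) (δ : ℝ) :
    Continuous (fun z : Mat m => bf χ δ z) :=
  hχ.smooth.continuous.comp (fs_cont.div_const _)

theorem bf_contDiff {m : ℕ} {χ : ℝ → ℝ} (hχ : Prof χ) (δ : ℝ) :
    ContDiff ℝ ((⊤ : ℕ∞) : WithTop ℕ∞) (fun z : V m => bf χ δ (mt z)) :=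
  hχ.smooth.comp (fs_contDiff.div_const _)

theorem bf_compact {m : ℕ} {χ : ℝ → ℝ} (hχ : Prof χ) {δ : ℝ} (h0 : 0 < δ) (h1 : δ ≤ 1 / 2) :
    HasCompactSupport (fun z : V m => bf χ δ (mt z)) := by
  refine HasCompactSupport.intro (isCompact_closedBall (0 : V m) 2) fun z hz => ?_
  by_contra h
  apply hz
  rw [mem_closedBall_zero_iff]
  exact sz_le_two (bf_supp4 hχ h0 h1 h)

theorem bf_supp_c {m : ℕ} {χ : ℝ → ℝ} (hχ : Prof χ) {δ : ℝ} (h0 : 0 < δ)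
    (h1 : δ ≤ 1 / 2) : ∃ c : ℝ, 0 < c ∧ ∀ z : Mat m, bf χ δ z ≠ 0 → sz z ≤ c ∧ c⁻¹ ≤ |z.det| := by
  refine ⟨2 + (Nat.factorial m : ℝ) * 2 ^ m, by positivity, fun z hz => ?_⟩
  have h4 := bf_supp4 hχ h0 h1 hz
  have h5 : (0 : ℝ) < (Nat.factorial m : ℝ) * 2 ^ m := by positivity
  refine ⟨(sz_le_two h4).trans (by linarith), le_trans ?_ (det_low h4)⟩
  exact inv_anti₀ h5 (by linarith)

end

end Pool.Agent.H86.GA
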