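import Pool.Agent.H34.GA.Targets1
import Pool.Agent.H86.GA.CORE

/-!
Rows TGD and CUA of the board ga: dilates of a test function, cut-off functions.
-/

set_option autoImplicit false

namespace Pool.Agent.H86.GA

open MeasureTheory Pool.Agent.H34.GM Pool.Agent.H34.GZ Pool.Agent.H34.GU Pool.Agent.H34.GA

theorem sz_cont {m : ℕ} : Continuous (fun z : Mat m => sz z) := by
  unfold sz
  exact continuous_norm.comp continuous_id

theorem sz_smul {m : ℕ} (r : ℝ) (z : Mat m) : sz (r • z) = |r| * sz z := by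
  have e2 : sz (r • z) = ‖r • ((fun i j => z i j) : V m)‖ := rfl
  rw [e2, norm_smul, Real.norm_eq_abs]
  rfl

theorem pf_CUA : T_CUA := by
  intro m hm
  refine ⟨fun j z => max 0 (min 1 ((j : ℝ) + 2 - sz z)) *
    max 0 (min 1 (((j : ℝ) + 1) * |z.det| - 1)), ?_, ?_, ?_⟩
  · intro j z
    have h1 : max 0 (min 1 ((j : ℝ) + 2 - sz z)) ≤ 1 := max_le zero_le_one (min_le_left _ _)
    have h2 : max 0 (min 1 (((j : ℝ) + 1) * |z.det| - 1)) ≤ 1 :=
      max_le zero_le_one (min_le_left _ _)
    exact ⟨mul_nonneg (le_max_left _ _) (le_max_left _ _), mul_le_one₀ h1 (le_max_left _ _) h2⟩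
  · intro z hz
    have h0 : 0 < |z.det| := abs_pos.2 hz
    refine tendsto_const_nhds.congr' ?_
    obtain ⟨N1, hN1⟩ := exists_nat_ge (sz z)
    obtain ⟨N2, hN2⟩ := exists_nat_ge (2 / |z.det|)
    filter_upwards [Filter.eventually_ge_atTop (max N1 N2)] with j hj
    have hj1 : (N1 : ℝ) ≤ j := by exact_mod_cast (le_max_left _ _).trans hj
    have hj2 : (N2 : ℝ) ≤ j := by exact_mod_cast (le_max_right _ _).trans hj
    have h3 : 1 ≤ (j : ℝ) + 2 - sz z := by linarith
    have h4 : 1 ≤ ((j : ℝ) + 1) * |z.det| - 1 := by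
      have h5 : 2 / |z.det| ≤ (j : ℝ) + 1 := by linarith
      rw [div_le_iff₀ h0] at h5
      linarith
    rw [min_eq_left h3, min_eq_left h4, max_eq_right zero_le_one, mul_one]
  · intro Ψ hΨ j
    refine ⟨?_, (j : ℝ) + 2, by positivity, ?_⟩
    · refine Continuous.mul (Complex.continuous_ofReal.comp ?_) hΨ.cont
      refine Continuous.mul ?_ ?_
      · exact continuous_const.max (continuous_const.min (continuous_const.sub sz_cont))
      · have h1 : Continuous (fun z : Mat m => |z.det|) := (continuous_id.matrix_det).abs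
        exact continuous_const.max (continuous_const.min
          ((continuous_const.mul h1).sub continuous_const))
    · intro z hz
      have h1 := left_ne_zero_of_mul hz
      have h2 : max 0 (min 1 ((j : ℝ) + 2 - sz z)) *
          max 0 (min 1 (((j : ℝ) + 1) * |z.det| - 1)) ≠ 0 := by
        intro h
        apply h1
        show (((max 0 (min 1 ((j : ℝ) + 2 - sz z)) *
          max 0 (min 1 (((j : ℝ) + 1) * |z.det| - 1)) : ℝ)) : ℂ) = 0
        rw [h, Complex.ofReal_zero]
      have h3 : 0 < (j : ℝ) + 2 - sz z := by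
        by_contra h
        push Not at h
        apply left_ne_zero_of_mul h2
        exact max_eq_left ((min_le_right _ _).trans h)
      have h4 : 0 < ((j : ℝ) + 1) * |z.det| - 1 := by
        by_contra h
        push Not at h
        apply right_ne_zero_of_mul h2
        exact max_eq_left ((min_le_right _ _).trans h)
      refine ⟨by linarith, ?_⟩
      rw [inv_le_iff_one_le_mul₀ (by positivity)]
      nlinarith [abs_nonneg z.det]

theorem pf_TGD : T_TGD := by
  intro m hm k r hk hr
  refine ⟨⟨?_, ?_⟩, ?_⟩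
  · exact hk.cont.comp (continuous_const_smul r⁻¹)
  · obtain ⟨c, hc, h⟩ := hk.supp
    refine ⟨r * c + c / r ^ m, by positivity, fun z hz => ?_⟩
    obtain ⟨h1, h2⟩ := h _ hz
    have hp : 0 < c / r ^ m := by positivity
    constructor
    · rw [sz_smul, abs_of_pos (inv_pos.2 hr), inv_mul_le_iff₀ hr] at h1
      linarith
    · rw [Matrix.det_smul, Fintype.card_fin, abs_mul, abs_of_pos (by positivity), inv_pow] at h2
      have h3 : (r * c + c / r ^ m)⁻¹ ≤ (c / r ^ m)⁻¹ := inv_anti₀ hp (by
        have : 0 < r * c := by positivity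
        linarith)
      refine h3.trans ?_
      rw [inv_div]
      have h4 : r ^ m / c = r ^ m * c⁻¹ := div_eq_mul_inv _ _
      rw [h4]
      have h5 : 0 < r ^ m := by positivity
      calc r ^ m * c⁻¹ ≤ r ^ m * ((r ^ m)⁻¹ * |z.det|) := mul_le_mul_of_nonneg_left h2 h5.le
        _ = |z.det| := by
          rw [← mul_assoc, mul_inv_cancel₀ h5.ne', one_mul]
  · intro N _ F
    funext g x
    unfold Rr
    refine integral_congr_ae (Filter.Eventually.of_forall fun z => ?_)
    show k (r⁻¹ • (((1 : ℝ)⁻¹ * (aN (mt z))⁻¹) • mt z)) * F (g * (mt z)⁻¹) x =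
      k ((r⁻¹ * (aN (mt z))⁻¹) • mt z) * F (g * (mt z)⁻¹) x
    rw [smul_smul, inv_one, one_mul]

end Pool.Agent.H86.GA
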