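import Pool.Agent.H34.GA.Targets1
import Pool.Agent.H86.GA.CORE

/-!
Row LPI of the board ga: the bump functions under small changes of the variable.
-/

set_option autoImplicit false

namespace Pool.Agent.H86.GA

open MeasureTheory Pool.Agent.H34.GM Pool.Agent.H34.GZ Pool.Agent.H34.GU Pool.Agent.H34.GA

theorem mul_bd {m : ℕ} {X Y : Mat m} {x y : ℝ} (hx0 : 0 ≤ x) (hx : ∀ i j, |X i j| ≤ x)
    (hy : ∀ i j, |Y i j| ≤ y) (i j : Fin m) : |(X * Y) i j| ≤ m * (x * y) := by
  rw [Matrix.mul_apply]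
  calc |∑ k, X i k * Y k j| ≤ ∑ k, |X i k * Y k j| := Finset.abs_sum_le_sum_abs _ _
    _ ≤ ∑ _k : Fin m, x * y := Finset.sum_le_sum fun k _ => by
        rw [abs_mul]
        exact mul_le_mul (hx i k) (hy k j) (abs_nonneg _) hx0
    _ = m * (x * y) := by
        rw [Finset.sum_const, Finset.card_univ, Fintype.card_fin, nsmul_eq_mul]

theorem adj_bd {m : ℕ} {c : Mat m} {x : ℝ} (hx : 1 ≤ x) (hc : ∀ i j, |c i j| ≤ x)
    (i j : Fin m) : |c.adjugate i j| ≤ (Nat.factorial m : ℝ) * x ^ m := by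
  rw [Matrix.adjugate_apply]
  refine det_bd fun a b => ?_
  by_cases h1 : a = j
  · subst h1
    rw [Matrix.updateRow_self]
    change |(Pi.single i (1 : ℝ) : Fin m → ℝ) b| ≤ x
    by_cases h2 : b = i
    · subst h2
      rw [Pi.single_eq_same, abs_one]
      exact hx
    · rw [Pi.single_eq_of_ne h2, abs_zero]
      linarith
  · rw [Matrix.updateRow_ne h1]
    exact hc a b

/-- the Frobenius norm -/
theorem sqrt_fs_sub {m : ℕ} {z z' : Mat m} {η : ℝ} (hη : 0 ≤ η)
    (h : ∀ i j, |(z - z') i j| ≤ η) :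
    |Real.sqrt (fs z) - Real.sqrt (fs z')| ≤ m * η := by
  have e1 : ∀ M : Mat m, Real.sqrt (∑ i, ∑ j, (M i j) ^ 2) =
      ‖(WithLp.toLp 2 (fun p : Fin m × Fin m => M p.1 p.2) : EuclideanSpace ℝ (Fin m × Fin m))‖ := by
    intro M
    rw [EuclideanSpace.norm_eq, Fintype.sum_prod_type]
    simp only [Real.norm_eq_abs, sq_abs]
  unfold fs
  rw [e1, e1]
  refine (abs_norm_sub_norm_le _ _).trans ?_
  rw [EuclideanSpace.norm_eq]
  have h2 : (m : ℝ) * η = Real.sqrt ((m * η) ^ 2) := (Real.sqrt_sq (by positivity)).symm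
  rw [h2]
  apply Real.sqrt_le_sqrt
  calc _ ≤ ∑ _p : Fin m × Fin m, η ^ 2 := by
        refine Finset.sum_le_sum fun p _ => ?_
        rw [Real.norm_eq_abs]
        refine pow_le_pow_left₀ (abs_nonneg _) ?_ 2
        have h3 : (z - 1) p.1 p.2 - (z' - 1) p.1 p.2 = (z - z') p.1 p.2 := by
          simp only [Matrix.sub_apply]
          ring
        show |(z - 1) p.1 p.2 - (z' - 1) p.1 p.2| ≤ η
        rw [h3]
        exact h p.1 p.2
    _ = (m * η) ^ 2 := by
        rw [Finset.sum_const, Finset.card_univ, Fintype.card_prod, Fintype.card_fin, nsmul_eq_mul]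
        push_cast
        ring

theorem bi_eq {m : ℕ} (χ : ℝ → ℝ) (δ : ℝ) (z : Mat m) : bi m χ δ z = ((bf χ δ z : ℝ) : ℂ) := rfl

theorem bi_ne {m : ℕ} {χ : ℝ → ℝ} {δ : ℝ} {z : Mat m} (h : bi m χ δ z ≠ 0) : bf χ δ z ≠ 0 := by
  intro h0
  apply h
  rw [bi_eq, h0, Complex.ofReal_zero]

theorem pf_LPI : T_LPI := by
  intro m χ B hm hχ hB
  have hmR : (1 : ℝ) ≤ m := by exact_mod_cast hm
  set c0 : ℝ := ((Nat.factorial m : ℝ) * 2 ^ m)⁻¹ with hc0d
  have hc0 : 0 < c0 := by positivity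
  -- the profile as a function of the square root
  have hsupp : HasCompactSupport (fun s : ℝ => χ (s ^ 2)) := by
    refine HasCompactSupport.intro (isCompact_Icc (a := (-1 : ℝ)) (b := 1)) fun s hs => ?_
    apply hχ.supp
    rw [abs_of_nonneg (sq_nonneg s)]
    by_contra h1
    apply hs
    rw [Set.mem_Icc, ← abs_le]
    have h2 : |s| ^ 2 ≤ 1 := by rw [sq_abs]; linarith
    nlinarith [abs_nonneg s]
  have hsm : ContDiff ℝ ((⊤ : ℕ∞) : WithTop ℕ∞) (fun s : ℝ => χ (s ^ 2)) :=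
    hχ.smooth.comp (contDiff_id.pow 2)
  obtain ⟨K, hK⟩ := hsm.lipschitzWith_of_hasCompactSupport hsupp (by simp)
  set A0 : ℝ := (Nat.factorial m : ℝ) * (1 + B) ^ m with hA0
  have hA1 : 1 ≤ A0 := by
    have h1 : (1 : ℝ) ≤ (Nat.factorial m : ℝ) := by exact_mod_cast Nat.factorial_pos m
    have h2 : (1 : ℝ) ≤ (1 + B) ^ m := one_le_pow₀ (by linarith)
    nlinarith
  set Z : ℝ := m * (2 * A0) with hZ
  have hZ2 : 2 ≤ Z := by nlinarith
  set C1 : ℝ := m * (Z * B) with hC1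
  have hC10 : 0 ≤ C1 := by positivity
  have hK0 : (0 : ℝ) ≤ K := K.2
  refine ⟨1 + Z + c0⁻¹ + K * (m * C1), ?_, ?_⟩
  · have h1 : 0 ≤ (K : ℝ) * (m * C1) := by positivity
    have h2 : 0 ≤ c0⁻¹ := by positivity
    linarith
  intro δ hδ hδ2 z c τ hc hτ hτ1 hcτ
  have hBτ : 0 ≤ B * τ := by positivity
  have hd : ∀ i j, |(c - 1) i j| ≤ B * τ := (sz_le hBτ).mp hcτ
  have hcb : ∀ i j, |c i j| ≤ 1 + B := by
    intro i j
    have h1 := hd i j
    have h2 : c i j = (c - 1) i j + (1 : Mat m) i j := by simp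
    have h3 : |(1 : Mat m) i j| ≤ 1 := by
      rw [Matrix.one_apply]
      split_ifs <;> simp
    rw [h2]
    refine (abs_add_le _ _).trans ?_
    nlinarith
  have hadj := adj_bd (by linarith : (1 : ℝ) ≤ 1 + B) hcb
  have hzc : z = (z * c) * c.adjugate := by
    rw [Matrix.mul_assoc, Matrix.mul_adjugate, hc, one_smul, Matrix.mul_one]
  -- the support
  have hsup : ∀ w : Mat m, bi m χ δ w ≠ 0 → fs w ≤ 1 / 4 := fun w hw =>
    bf_supp4 hχ hδ hδ2 (bi_ne hw)
  have hsz : bi m χ δ z ≠ 0 ∨ bi m χ δ (z * c) ≠ 0 → (∀ i j, |z i j| ≤ Z) ∧ c0 ≤ |z.det| := by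
    rintro (h1 | h1)
    · refine ⟨fun i j => ((entry_le z i j).trans (sz_le_two (hsup _ h1))).trans hZ2,
        det_low (hsup _ h1)⟩
    · constructor
      · rw [hzc]
        exact mul_bd (by norm_num) (fun i j => (entry_le _ i j).trans (sz_le_two (hsup _ h1))) hadj
      · have h2 := det_low (hsup _ h1)
        rwa [Matrix.det_mul, hc, mul_one] at h2
  refine ⟨?_, ?_⟩
  · by_cases h0 : bi m χ δ z ≠ 0 ∨ bi m χ δ (z * c) ≠ 0
    · obtain ⟨hz, -⟩ := hsz h0
      have hZ0 : 0 ≤ Z := by linarith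
      have hzd : ∀ i j, |(z * (c - 1)) i j| ≤ m * (Z * (B * τ)) := mul_bd hZ0 hz hd
      have hη : ∀ i j, |(z - z * c) i j| ≤ C1 * τ := by
        intro i j
        have e1 : (z - z * c) i j = -((z * (c - 1)) i j) := by
          rw [Matrix.mul_sub, Matrix.mul_one]
          simp only [Matrix.sub_apply]
          ring
        rw [e1, abs_neg]
        calc _ ≤ m * (Z * (B * τ)) := hzd i j
          _ = C1 * τ := by rw [hC1]; ring
      have h3 := sqrt_fs_sub (by positivity) hη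
      have e2 : ∀ w : Mat m, bi m χ δ w = ((χ ((Real.sqrt (fs w) / δ) ^ 2) : ℝ) : ℂ) := by
        intro w
        rw [bi_eq, div_pow, Real.sq_sqrt (fs_nonneg w)]
        rfl
      rw [e2, e2, ← Complex.ofReal_sub, Complex.norm_real]
      have h4 := hK.dist_le_mul (Real.sqrt (fs z) / δ) (Real.sqrt (fs (z * c)) / δ)
      rw [Real.dist_eq, Real.dist_eq, ← sub_div, abs_div, abs_of_pos hδ] at h4
      rw [Real.norm_eq_abs]
      refine h4.trans ?_
      calc (K : ℝ) * (|Real.sqrt (fs z) - Real.sqrt (fs (z * c))| / δ) ≤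
            K * ((m * (C1 * τ)) / δ) := by
            apply mul_le_mul_of_nonneg_left _ hK0
            exact div_le_div_of_nonneg_right h3 hδ.le
        _ = (K * (m * C1)) * δ⁻¹ * τ := by ring
        _ ≤ _ := by
          apply mul_le_mul_of_nonneg_right _ hτ
          apply mul_le_mul_of_nonneg_right _ (by positivity)
          have h5 : 0 ≤ c0⁻¹ := by positivity
          linarith
    · rw [not_or, not_not, not_not] at h0
      rw [h0.1, h0.2, sub_zero, norm_zero]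
      have h1 : 0 ≤ (K : ℝ) * (m * C1) := by positivity
      have h2 : 0 ≤ c0⁻¹ := by positivity
      have h3 : 0 ≤ 1 + Z + c0⁻¹ + K * (m * C1) := by linarith
      positivity
  · intro h0
    obtain ⟨hz, hz'⟩ := hsz h0
    have h1 : 0 ≤ (K : ℝ) * (m * C1) := by positivity
    have h2 : 0 ≤ c0⁻¹ := by positivity
    refine ⟨((sz_le (by linarith)).mpr hz).trans (by linarith), ?_⟩
    refine le_trans ?_ hz'
    rw [inv_le_comm₀ (by linarith) hc0]
    linarith

end Pool.Agent.H86.GA
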